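import Pool.Agent.VOAut.AutInf

/-!
# Weight one vectors and automorphisms of rational vertex operator algebras

All definitions (vertex operator algebras, admissible modules, rationality, automorphisms) are in
`Pool.Agent.VOAut.Defs`.

Outline of the proof.  Let `v ∈ V_1` with `v_0 = 0` on `V`.  Then
`Y_ε(u,z)(x,y) = (Y(u,z)x, Y(u,z)y + ∑_{k ≥ 1} (-1)^(k+1)/k z^(-k) Y(v_k u,z) x)`
defines an admissible module structure on `V × V` which extends the adjoint module by itself
(`VOA.ext`).  Rationality splits the extension; the splitting contains a vector `(1, z)` with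
`z ∈ V_0`, and applying the mode `ω_0` to it gives `(0, v + L(-1) z')` with `z' ∈ V_0`, hence
`v ∈ L(-1) V_0`.  So for `v ∈ V_1` outside `L(-1) V_0` with `v_0 ω = 0` the zero mode `v_0` is a
nonzero derivation which kills `ω` and preserves the finite dimensional pieces, and such a
derivation exponentiates to infinitely many automorphisms.  Finally `v_0 ω` always lies in
`L(-1) L(-1) V_0`, so such a `v` exists when `dim V_1 > 2 dim L(-1) V_0`.
-/

set_option autoImplicit false

universe u

namespace Pool.Agent.Results.MP_11a9fb_al.RationalWeightOne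

open Pool.Agent.VOAut

variable {V : Type u} [AddCommGroup V] [Module ℂ V]

/-- An element of `V_1` outside `L(-1) V_0` whose zero mode kills the conformal vector gives
infinitely many automorphisms. -/
theorem infinite_of_mem (A : VOA V) (hrat : A.Rational) (v : V) (hv : v ∈ A.gr 1)
    (hom : A.Y v 0 A.om = 0) (hne : v ∉ A.DV0) : Infinite {g : V ≃ₗ[ℂ] V // A.IsAut g} := by
  apply A.aut_infinite_of_derivation (A.Y v 0)
  · intro u n w
    exact A.zero_mode v u w n
  · exact hom
  · intro n x hx
    have := A.graded 1 0 n v x hv hx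
    have e : n + 1 - 0 - 1 = n := by ring
    rwa [e] at this
  · intro h
    apply hne
    apply A.faithful hrat v hv
    intro w
    rw [h]
    rfl

theorem exists_of_finrank (A : VOA V)
    (h : 2 * Module.finrank ℂ A.DV0 < Module.finrank ℂ (A.gr 1)) :
    ∃ v ∈ A.gr 1, A.Y v 0 A.om = 0 ∧ v ∉ A.DV0 := by
  have f0 := A.findim 0
  have f1 := A.findim 1
  have fW : FiniteDimensional ℂ A.DV0 := by
    unfold VOA.DV0
    infer_instance
  have fW2 : FiniteDimensional ℂ (A.DV0.map (A.Y A.om 0)) := inferInstance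
  let ev : V →ₗ[ℂ] V :=
    { toFun := fun v => A.Y v 0 A.om
      map_add' := by
        intro a b
        simp only [map_add, Pi.add_apply, LinearMap.add_apply]
      map_smul' := by
        intro a b
        simp only [map_smul, Pi.smul_apply, LinearMap.smul_apply, RingHom.id_apply] }
  let φ : A.gr 1 →ₗ[ℂ] V := ev ∘ₗ (A.gr 1).subtype
  by_contra hcon
  push Not at hcon
  have h1 : LinearMap.range φ ≤ A.DV0.map (A.Y A.om 0) := by
    rintro _ ⟨v, rfl⟩
    exact A.mode_zero v.1 v.2
  have h2 : (LinearMap.ker φ).map (A.gr 1).subtype ≤ A.DV0 := by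
    rintro _ ⟨v, hv, rfl⟩
    exact hcon v.1 v.2 hv
  have h3 := LinearMap.finrank_range_add_finrank_ker φ
  have h4 : Module.finrank ℂ (LinearMap.range φ) ≤ Module.finrank ℂ A.DV0 :=
    (Submodule.finrank_mono h1).trans (Submodule.finrank_map_le _ _)
  have h5 : Module.finrank ℂ (LinearMap.ker φ) ≤ Module.finrank ℂ A.DV0 := by
    have h6 : Module.finrank ℂ ((LinearMap.ker φ).map (A.gr 1).subtype) =
        Module.finrank ℂ (LinearMap.ker φ) :=
      Submodule.finrank_map_subtype_eq _ _
    rw [← h6]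
    exact Submodule.finrank_mono h2
  omega

/-- Let `A` be a rational vertex operator algebra.

* The vectors of weight one whose zero mode vanishes on `V` are exactly the elements of
  `L(-1) V_0`.
* If some `v ∈ V_1` outside `L(-1) V_0` satisfies `v_0 ω = 0`, then `Aut(V)` is infinite.
* If `dim V_1 > 2 dim L(-1) V_0`, then `Aut(V)` is infinite.
* If `V_0 = ℂ 1` and `V_1 ≠ 0`, then `Aut(V)` is infinite. -/
theorem result {V : Type u} [AddCommGroup V] [Module ℂ V] (A : VOA V) (hrat : A.Rational) :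
    (∀ v ∈ A.gr 1, (∀ w, A.Y v 0 w = 0) ↔ v ∈ (A.gr 0).map (A.Y A.om 0)) ∧
    ((∃ v ∈ A.gr 1, A.Y v 0 A.om = 0 ∧ v ∉ (A.gr 0).map (A.Y A.om 0)) →
      Infinite {g : V ≃ₗ[ℂ] V // A.IsAut g}) ∧
    (2 * Module.finrank ℂ ((A.gr 0).map (A.Y A.om 0)) < Module.finrank ℂ (A.gr 1) →
      Infinite {g : V ≃ₗ[ℂ] V // A.IsAut g}) ∧
    (A.gr 0 = Submodule.span ℂ {A.vac} → A.gr 1 ≠ ⊥ →
      Infinite {g : V ≃ₗ[ℂ] V // A.IsAut g}) := by
  have h3 : 2 * Module.finrank ℂ ((A.gr 0).map (A.Y A.om 0)) < Module.finrank ℂ (A.gr 1) →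
      Infinite {g : V ≃ₗ[ℂ] V // A.IsAut g} := by
    intro h
    obtain ⟨v, hv, hom, hne⟩ := exists_of_finrank A h
    exact infinite_of_mem A hrat v hv hom hne
  refine ⟨fun v hv => ⟨fun h => A.faithful hrat v hv h, fun h w => A.zero_of_mem_DV0 v h w⟩,
    ?_, h3, ?_⟩
  · rintro ⟨v, hv, hom, hne⟩
    exact infinite_of_mem A hrat v hv hom hne
  · intro h0 h1
    apply h3
    have e : (A.gr 0).map (A.Y A.om 0) = ⊥ := by
      rw [h0, Submodule.map_span, Set.image_singleton, A.creation A.om 0 le_rfl]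
      simp
    rw [e, finrank_bot, mul_zero]
    have := A.findim 1
    obtain ⟨v, hv, hvne⟩ := Submodule.exists_mem_ne_zero_of_ne_bot h1
    exact Module.finrank_pos_iff_exists_ne_zero.2
      ⟨⟨v, hv⟩, fun h => hvne (congrArg Subtype.val h)⟩

end Pool.Agent.Results.MP_11a9fb_al.RationalWeightOne
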