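import Pool.Agent.VL.CC
import Pool.Agent.VL.ME
import Pool.Agent.VL.SIM
import Pool.Agent.VL.AUT
import Pool.Agent.VL.LAT
import Pool.Agent.VL.CTWO

/-!
# A rational vertex operator algebra with `V_1 ≠ 0` and trivial automorphism group

Vertex operator algebras and automorphisms are defined in `Pool.Agent.VOAut.Defs`, admissible
modules, rationality, simplicity and `C_2`-cofiniteness in `Pool.Agent.VL.Defs`.

The example is the lattice vertex algebra of `√2 ℤ`, realised on
`⊕_m ℂ[x_1, x_2, ...] t^m` (`t^m = e^{mα}`, `(α, α) = 2`, `x_n = α(-n)`), with the conformal vector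
`x_1^2/4 + x_2/2 + L(-1)^2 t`.  The monomial `x^p t^m` has weight `deg p + m (m - 1)`, so that
`V_0 = ⟨1, t⟩` and `V_1 = ⟨x_1, x_1 t⟩`.  An automorphism maps `t` to a multiple `c t`, fixes `x_1`
(relations `x_1(0) t = 2 t`, `x_1(1) x_1 = 2`), and the summand `L(-1)^2 t` of the conformal vector
forces `c = 1`.  Complete reducibility of all admissible modules is proved through the highest
weight vectors of the Heisenberg algebra.
-/

set_option autoImplicit false

universe w

namespace Pool.Agent.Results.MP_11a9fb_al.TrivialAutomorphisms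

open Pool.Agent.VOAut Pool.Agent.VL

theorem finrank_pair {V : Type} [AddCommGroup V] [Module ℂ V] (a b : V)
    (h : ∀ x y : ℂ, x • a + y • b = 0 → x = 0 ∧ y = 0) :
    Module.finrank ℂ (Submodule.span ℂ {a, b}) = 2 := by
  have hli : LinearIndependent ℂ ![a, b] := by
    rw [LinearIndependent.pair_iff]
    exact h
  have := finrank_span_eq_card hli
  rw [Fintype.card_fin] at this
  have hr : Set.range ![a, b] = {a, b} := by
    ext x
    simp only [Set.mem_insert_iff, Set.mem_singleton_iff, Set.mem_range]
    constructor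
    · rintro ⟨i, rfl⟩
      fin_cases i
      · exact Or.inl rfl
      · exact Or.inr rfl
    · rintro (rfl | rfl)
      · exact ⟨0, rfl⟩
      · exact ⟨1, rfl⟩
  rw [hr] at this
  exact this

/-- There is a simple, rational, `C_2`-cofinite vertex operator algebra with `V_n = 0` for `n < 0`,
`dim V_0 = dim V_1 = 2` (in particular `V_1 ≠ 0`) whose only automorphism is the identity. -/
theorem result : ∃ (V : Type) (_ : AddCommGroup V) (_ : Module ℂ V) (A : VOA V),
    Rational.{0, w} A ∧ Simple A ∧ C2Cofinite A ∧ (∀ n : ℤ, n < 0 → A.gr n = ⊥) ∧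
    Module.finrank ℂ (A.gr 0) = 2 ∧ Module.finrank ℂ (A.gr 1) = 2 ∧
    ∀ g : V ≃ₗ[ℂ] V, A.IsAut g ↔ g = LinearEquiv.refl ℂ V := by
  obtain ⟨A, hvac, hom, _, hh, he, hf, hT, hcov, hgen, hneg, hg0, hg1, _⟩ := exists_voa
  refine ⟨VS, inferInstance, inferInstance, A, ?_⟩
  obtain ⟨ho, hli, hee, hTT, hTt, huniq⟩ := aut_hyps
  -- the weight of `t^{-1}`
  have hw : A.Y omS 1 (tt (-1)) = ((wt 0 (-1) : ℤ) : ℂ) • tt (-1) := by
    have := om_one
      { Y := A.Y
        vac := A.vac
        trunc := A.trunc
        vacuum := A.vacuum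
        creation := A.creation
        creation_neg_one := A.creation_neg_one
        jacobi := A.jacobi } ⟨hvac, hh, he, hf, hcov, hgen⟩ (-1) 0
    simpa [tt] using this
  have g2 : tt 1 ∈ A.gr 0 := by
    rw [hg0]
    exact Submodule.subset_span (Or.inr rfl)
  have g0 : tt 0 ∈ A.gr 0 := by
    rw [hg0]
    exact Submodule.subset_span (Or.inl rfl)
  have g1 : Finsupp.single 0 (MvPolynomial.X 0) ∈ A.gr 1 := by
    rw [hg1]
    exact Submodule.subset_span (Or.inl rfl)
  have g3 : tt (-1) ∈ A.gr 2 := by
    rw [A.mem_gr, hom, hw]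
    simp [wt]
  obtain ⟨L, lh, le, lf, lκ, lp⟩ := exists_lat A hvac hom hh he hf hT hgen g1 g2 g3
  have hvne : A.vac ≠ 0 := by
    intro h
    rw [hvac] at h
    have := hli 1 0 (by rw [h]; simp)
    exact one_ne_zero this.1
  refine ⟨rational_of_lat L, simple_of_lat L hneg hvne, c2_of A hvac hh he hf hcov, hneg, ?_, ?_, ?_⟩
  · rw [hg0]
    exact finrank_pair _ _ hli
  · rw [hg1]
    apply finrank_pair
    intro x y hxy
    have e0 := congrArg (fun v : VS => v 0) hxy
    have e1 := congrArg (fun v : VS => v 1) hxy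
    simp only [Finsupp.add_apply, Finsupp.smul_apply, Finsupp.single_eq_same, Finsupp.coe_zero,
      Pi.zero_apply] at e0 e1
    rw [Finsupp.single_eq_of_ne (by norm_num), smul_zero, add_zero] at e0
    rw [Finsupp.single_eq_of_ne (by norm_num), smul_zero, zero_add] at e1
    exact ⟨(smul_eq_zero.1 e0).resolve_right (MvPolynomial.X_ne_zero 0),
      (smul_eq_zero.1 e1).resolve_right (MvPolynomial.X_ne_zero 0)⟩
  · intro g
    constructor
    · intro hg
      have hYh : A.Y L.h = hF := by rw [lh, hh]
      have hYe : A.Y L.e = gF 1 := by rw [le, he]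
      apply aut_trivial L (1 / 2) (1 / 4) _ lp hneg _ _ _ _ _ _ g hg
      · rw [hom, hT, hYh, lh, hvac, le]
        exact ho
      · intro x y hxy
        rw [hvac, le] at hxy
        exact hli x y hxy
      · rw [hYe, le]
        exact hee
      · rw [hom, hT, le]
        exact hTT
      · intro v hv
        rw [hg0, Submodule.mem_span_pair] at hv
        obtain ⟨x, y, rfl⟩ := hv
        exact ⟨x, y, by rw [hvac, le]⟩
      · intro v hv
        rw [hg1, Submodule.mem_span_pair] at hv
        obtain ⟨x, y, rfl⟩ := hv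
        exact ⟨x, y, by rw [lh, hom, hT, le, hTt]⟩
      · intro v h1 h2
        rw [hYh, lκ] at h1
        rw [lf]
        apply huniq v
        · simpa using h1
        · intro n
          have := h2 n
          rw [hYh] at this
          exact this
    · rintro rfl
      exact ⟨fun _ _ _ => rfl, rfl⟩

end Pool.Agent.Results.MP_11a9fb_al.TrivialAutomorphisms
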