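import Pool.Agent.DERVX.XE
import Pool.Agent.DERVX.XF

/-!
# Rational `C_2`-cofinite vertex operator algebras with `V_1 = 0` have finite automorphism groups

All definitions (vertex operator algebras, admissible modules, rationality, automorphisms) are in
`Pool.Agent.VOAut.Defs`.

Outline of the proof of the first part.  If `V_1 = 0` then `V_n = 0` for all `n < 0`, the zero
modes of `V_0` commute with everything, and rationality writes `V` as a finite direct sum of
vertex operator algebras with `V_0 = ℂ 1` (`Pool.Agent.DERVX`), each of them rational and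
`C_2`-cofinite.  A derivation `D` preserves the summands, so that one may assume `V_0 = ℂ 1`.
Then the adjoint module is simple and carries a nondegenerate pairing, and the
graded traces of the operators `o(u) o(v)` over the irreducible modules converge and span a
finite dimensional space stable under `SL_2(ℤ)` (`Pool.Agent.DERV`, `Pool.Agent.DERVR`).  The
trace of `o(v) D` is compared with these through the transformation `τ ↦ -1/τ`, which shows that
`D` vanishes.  Since `V` is generated by finitely many of the `V_n`, the group `Aut(V)` is a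
closed subgroup of a product of `GL(V_n)`, and one without nonzero derivations is finite
(`Pool.Agent.VOAut.AutFin`).
-/

set_option autoImplicit false

universe u

namespace Pool.Agent.Results.MP_11a9fb_al.WeightOneZero

open Pool.Agent.VOAut

/-- Let `A` be a rational `C_2`-cofinite vertex operator algebra.

* If `V_1 = 0`, then `Aut(V)` is finite and `V` has no nonzero derivation which kills `ω`.
* If `V_0 = ℂ 1`, then `Aut(V)` is finite if and only if `V_1 = 0`. -/
theorem result {V : Type u} [AddCommGroup V] [Module ℂ V] (A : VOA V) (hrat : A.Rational)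
    (hc : FiniteDimensional ℂ (V ⧸ Submodule.span ℂ {x : V | ∃ u v : V, x = A.Y u (-2) v})) :
    (A.gr 1 = ⊥ → Finite {g : V ≃ₗ[ℂ] V // A.IsAut g} ∧
      ∀ D : V →ₗ[ℂ] V, (∀ (u : V) (n : ℤ) (w : V),
        D (A.Y u n w) = A.Y (D u) n w + A.Y u n (D w)) → D A.om = 0 → D = 0) ∧
    (A.gr 0 = Submodule.span ℂ {A.vac} →
      (Finite {g : V ≃ₗ[ℂ] V // A.IsAut g} ↔ A.gr 1 = ⊥)) := by
  refine ⟨fun h1 => ⟨DERVX.aut_finite_of_one A h1 hc hrat, fun D hD ho =>
    DERVX.der_zero A h1 hc hrat ⟨hD, ho⟩⟩, fun h0 => ⟨DERVX.one_of_finite A hrat h0,
    fun h1 => DERVX.aut_finite_of_one A h1 hc hrat⟩⟩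

end Pool.Agent.Results.MP_11a9fb_al.WeightOneZero
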